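import Pool.Agent.D0H10.Q4.StmA

/-!
# Valuations of the values at points of odd order
-/

set_option autoImplicit false

open Filter Complex
open scoped Topology PeriodPair

namespace Pool.Agent.D0H42.Q4

open H385 (ZI RQ im1 nrm)
open Pool.Agent.H304R3.HK (tc HC LH)
open Pool.Agent.Y699
open Pool.Agent.D0H10.Q4

variable {L : PeriodPair} {Ω s : ℂ}

/-! ### points -/

lemma OT.dbl (h : GLat L Ω) {z : ℂ} (hz : OT L z) : OT L (2 * z) := by
  refine ⟨hz.two h, ?_⟩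
  obtain ⟨D, hD, hDz⟩ := hz.ex
  refine ⟨D, hD, ?_⟩
  have h1 := add_mem hDz hDz
  have e : tc D * z + tc D * z = tc D * (2 * z) := by ring
  rwa [e] at h1

lemma OT.neg' {z : ℂ} (hz : OT L z) : OT L (-z) := by
  obtain ⟨D, hD, hDz⟩ := hz.ex
  refine ⟨fun h => hz.nm ?_, D, hD, ?_⟩
  · have := neg_mem h
    rwa [neg_neg] at this
  · have := neg_mem hDz
    have e : -(tc D * z) = tc D * (-z) := by ring
    rwa [e] at this

lemma OT.mpi (h : GLat L Ω) {z : ℂ} (hz : OT L z) : OT L ((1 + I) * z) := by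
  have := hz.pow h 1
  rwa [pow_one] at this

section val

variable {Γ : Type} [LinearOrderedCommGroupWithZero Γ] {v : Valuation ℂ Γ}

lemma sq_lt {x : ℂ} (h : v (x ^ 2) < 1) : v x < 1 := by
  rw [map_pow] at h
  by_contra hc
  rw [not_lt] at hc
  exact absurd (one_le_pow₀ hc (n := 2)) (not_le.2 h)

/-- squares -/
lemma cg_sq {x y : ℂ} (h2 : v 2 < 1) (hy : v y ≤ 1) (h : v (x ^ 2 - y ^ 2) < 1) : Cg v x y := by
  have hx : v x ≤ 1 := by
    have h1 : v (x ^ 2) ≤ 1 := by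
      have e : x ^ 2 = (x ^ 2 - y ^ 2) + y ^ 2 := by ring
      rw [e]
      refine v.map_add_le h.le ?_
      rw [map_pow]
      exact pow_le_one₀ zero_le hy
    rw [map_pow] at h1
    by_contra hc
    rw [not_le] at hc
    exact absurd (one_lt_pow₀ hc (n := 2) two_ne_zero) (not_lt.2 h1)
  refine ⟨hx, hy, sq_lt ?_⟩
  have e : (x - y) ^ 2 = (x ^ 2 - y ^ 2) + 2 * (y * (y - x)) := by ring
  rw [e]
  refine v.map_add_lt h ?_
  rw [map_mul]
  refine mul_lt_one_of_lt_of_le h2 ?_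
  rw [map_mul]
  refine mul_le_one' hy ?_
  exact (v.map_sub _ _).trans (max_le hy hx)

lemma pi_ne : (1 + I : ℂ) ≠ 0 := one_I_ne

lemma pi_sq : (1 + I : ℂ) ^ 2 = 2 * I := by linear_combination Complex.I_sq

variable (h2 : v 2 < 1) (N : NL L Ω s)

/-- `(x - 1) / (1 + i)` -/
noncomputable def U (L : PeriodPair) (t : ℂ) : ℂ := (℘[L] t - 1) / (1 + I)

/-- `i x' - 1` -/
noncomputable def R (L : PeriodPair) (t : ℂ) : ℂ := I * ℘[L] ((1 + I) * t) - 1

lemma U_eq (t : ℂ) : ℘[L] t = 1 + (1 + I) * U L t := by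
  unfold U
  have := pi_ne
  field_simp
  ring

include N in
lemma mp {t : ℂ} (ht : OT L t) :
    ℘[L] t ^ 2 - 1 = 2 * I * ℘[L] t * ℘[L] ((1 + I) * t) := (N.gl.mul_pi (ht.two N.gl)).1.symm

include N in
lemma U_sq {t : ℂ} (ht : OT L t) :
    U L t ^ 2 = ℘[L] t * ℘[L] ((1 + I) * t) + I * (℘[L] t - 1) := by
  have h1 := mp N ht
  unfold U
  rw [div_pow, pi_sq, div_eq_iff (mul_ne_zero two_ne_zero I_ne_zero)]
  linear_combination h1 - 2 * (℘[L] t - 1) * I_sq

include h2 N in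
lemma v_U {t : ℂ} (ht : OT L t) : v (U L t) = 1 := by
  unfold U
  rw [map_div₀, (wp_sub h2 N.gl ht).1, div_self v_pi_ne]

include h2 in
lemma cg_I : Cg v I 1 := by
  refine ⟨v_I.le, (map_one v).le, ?_⟩
  have e : I - 1 = I * (1 + I) := by linear_combination -I_sq
  rw [e, map_mul, v_I, one_mul]
  exact v_pi_lt h2

include h2 N in
lemma cg_x {t : ℂ} (ht : OT L t) : Cg v (℘[L] t) 1 :=
  ⟨(wp_one h2 N.gl ht).le, (map_one v).le, by
    rw [(wp_sub h2 N.gl ht).1]; exact v_pi_lt h2⟩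

include h2 N in
lemma cg_U {t : ℂ} (ht : OT L t) : Cg v (U L t) 1 := by
  refine cg_sq h2 (map_one v).le ?_
  rw [U_sq N ht]
  have h1 := cg_x h2 N ht
  have h3 := cg_x h2 N (OT.mpi N.gl ht)
  have h4 := (h1.mul h3).add ((cg_I h2).mul (h1.sub (Cg.refl (map_one v).le)))
  have e : (1 : ℂ) * 1 + 1 * (1 - 1) = 1 := by ring
  rw [e] at h4
  have h5 := h4.s
  rwa [one_pow]

include h2 N in
/-- `r² = 2 (1 + i) ρ`, `ρ ≡ 1` -/
lemma R_sq {t : ℂ} (ht : OT L t) : ∃ ρ : ℂ, R L t ^ 2 = 2 * (1 + I) * ρ ∧ Cg v ρ 1 ∧ v ρ = 1 := by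
  have ht1 := OT.mpi N.gl ht
  have ht2 := OT.mpi N.gl ht1
  have h1 := mp N ht1
  refine ⟨-(I * ℘[L] ((1 + I) * t) * (U L ((1 + I) * ((1 + I) * t)) + (1 - I))), ?_, ?_⟩
  · have h3 := U_eq (L := L) ((1 + I) * ((1 + I) * t))
    unfold R
    rw [h3] at h1
    linear_combination -h1 + (2 * ℘[L] ((1 + I) * t) * I + ℘[L] ((1 + I) * t) ^ 2 -
      4 * I * ℘[L] ((1 + I) * t)) * I_sq
  · have h4 := (((cg_I h2).mul (cg_x h2 N ht1)).mul ((cg_U h2 N ht2).add
      ((Cg.refl (map_one v).le).sub (cg_I h2)))).neg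
    have e : -((1 : ℂ) * 1 * (1 + (1 - 1))) = -1 := by ring
    rw [e] at h4
    have h5 : Cg v (-1 : ℂ) 1 := by
      refine ⟨by rw [Valuation.map_neg, map_one], (map_one v).le, ?_⟩
      have e2 : (-1 : ℂ) - 1 = -2 := by norm_num
      rw [e2, Valuation.map_neg]
      exact h2
    have h6 := h4.trans h5
    refine ⟨h6, ?_⟩
    have h7 := h6.s
    apply le_antisymm h6.l
    by_contra hc
    rw [not_le] at hc
    have h8 : v (1 : ℂ) < 1 := by
      have e3 : (1 : ℂ) = -((-(I * ℘[L] ((1 + I) * t) *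
          (U L ((1 + I) * ((1 + I) * t)) + (1 - I))) - 1)) +
          (-(I * ℘[L] ((1 + I) * t) * (U L ((1 + I) * ((1 + I) * t)) + (1 - I)))) := by ring
      rw [e3]
      refine v.map_add_lt ?_ hc
      rw [Valuation.map_neg]
      exact h7
    rw [map_one] at h8
    exact lt_irrefl _ h8

/-! ### differences -/

include N in
/-- the relation between the differences -/
lemma E_rel {a b : ℂ} (ha : OT L a) (hb : OT L b) :
    (U L a - U L b) ^ 2 = (U L a - U L b) * ((1 + I) * (℘[L] ((1 + I) * a) + I) - 2 * U L b) +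
      ℘[L] b * ((1 + I) * (U L ((1 + I) * a) - U L ((1 + I) * b))) := by
  have h1 := U_sq N ha
  have h3 := U_sq N hb
  have e1 := U_eq (L := L) a
  have e2 := U_eq (L := L) b
  have e3 := U_eq (L := L) ((1 + I) * a)
  have e4 := U_eq (L := L) ((1 + I) * b)
  have h5 : (1 + I) * (U L ((1 + I) * a) - U L ((1 + I) * b)) =
      ℘[L] ((1 + I) * a) - ℘[L] ((1 + I) * b) := by rw [e3, e4]; ring
  have h6 : ℘[L] a - ℘[L] b = (1 + I) * (U L a - U L b) := by rw [e1, e2]; ring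
  rw [h5]
  linear_combination h1 - h3 + (℘[L] ((1 + I) * a) + I) * h6

include h2 N in
lemma v_step {a b : ℂ} (ha : OT L a) (hb : OT L b) (hk : v (1 + I) < v (U L a - U L b)) :
    v (U L a - U L b) < v (U L ((1 + I) * a) - U L ((1 + I) * b)) := by
  by_contra hc
  rw [not_lt] at hc
  set e := U L a - U L b with he
  set e' := U L ((1 + I) * a) - U L ((1 + I) * b) with he'
  have hpl := v_pi_lt h2
  have h1 : v (℘[L] ((1 + I) * a) + I) ≤ v (1 + I) := by
    have e1 : ℘[L] ((1 + I) * a) + I = (℘[L] ((1 + I) * a) - 1) + (1 + I) := by ring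
    rw [e1]
    exact v.map_add_le (wp_sub h2 N.gl (OT.mpi N.gl ha)).1.le le_rfl
  have h3 : v ((1 + I) * (℘[L] ((1 + I) * a) + I) - 2 * U L b) ≤ v (1 + I) := by
    refine (v.map_sub _ _).trans (max_le ?_ ?_)
    · rw [map_mul]
      exact mul_le_of_le_one_right' (h1.trans hpl.le)
    · rw [map_mul, v_U h2 N hb, mul_one, ← v_pi_sq, sq]
      exact mul_le_of_le_one_right' hpl.le
  have h4 : v e ^ 2 ≤ v (1 + I) * v e := by
    rw [← map_pow, he, E_rel N ha hb, ← he, ← he']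
    refine v.map_add_le ?_ ?_
    · rw [map_mul, mul_comm]
      exact mul_le_mul_left h3 _
    · rw [map_mul, map_mul, wp_one h2 N.gl hb, one_mul]
      exact mul_le_mul_right hc _
  have h0 : v e ≠ 0 := by
    intro h0
    rw [h0] at hk
    exact absurd hk (not_lt.2 zero_le)
  rw [sq] at h4
  have h5 : v e ≤ v (1 + I) := le_of_mul_le_mul_right h4 (zero_lt_iff.2 h0)
  exact absurd h5 (not_le.2 hk)

include h2 N in
lemma v_diff {a b : ℂ} (ha : OT L a) (hb : OT L b) : v (U L a - U L b) ≤ v (1 + I) := by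
  by_contra hc
  rw [not_le] at hc
  obtain ⟨Na, hNa, hpa⟩ := ha.per N.gl
  obtain ⟨Nb, hNb, hpb⟩ := hb.per N.gl
  have hper : ∀ (z : ℂ) (M : ℕ), (∀ k : ℕ, ℘[L] ((1 + I) ^ (k + M) * z) = ℘[L] ((1 + I) ^ k * z)) →
      ∀ j : ℕ, ℘[L] ((1 + I) ^ (M * j) * z) = ℘[L] z := by
    intro z M hM j
    induction j with
    | zero => rw [mul_zero, pow_zero, one_mul]
    | succ j ih =>
      have := hM (M * j)
      rw [← ih, ← this]
      congr 2
  have h1 := hper a Na hpa Nb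
  have h3 := hper b Nb hpb Na
  rw [mul_comm Nb Na] at h3
  set F : ℕ → Γ := fun k => v (U L ((1 + I) ^ k * a) - U L ((1 + I) ^ k * b)) with hF
  have h4 : F (Na * Nb) = F 0 := by
    rw [hF]
    simp only [pow_zero, one_mul]
    unfold U
    rw [h1, h3]
  have hmono : ∀ k : ℕ, v (1 + I) < F k ∧ (0 < k → F 0 < F k) := by
    intro k
    induction k with
    | zero =>
      refine ⟨?_, fun h => absurd h (lt_irrefl _)⟩
      rw [hF]
      simp only [pow_zero, one_mul]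
      exact hc
    | succ k ih =>
      have h5 : F k < F (k + 1) := by
        have h6 := v_step h2 N (ha.pow N.gl k) (hb.pow N.gl k) ih.1
        have e1 : ∀ z : ℂ, (1 + I) * ((1 + I) ^ k * z) = (1 + I) ^ (k + 1) * z := fun z => by ring
        rw [e1, e1] at h6
        exact h6
      refine ⟨ih.1.trans h5, fun _ => ?_⟩
      rcases Nat.eq_zero_or_pos k with h6 | h6
      · subst h6; exact h5
      · exact (ih.2 h6).trans h5
  have h5 := (hmono (Na * Nb)).2 (Nat.mul_pos hNa hNb)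
  rw [h4] at h5
  exact lt_irrefl _ h5

omit N in
lemma R_sub (a b : ℂ) : R L a - R L b = I * ((1 + I) * (U L ((1 + I) * a) - U L ((1 + I) * b))) := by
  unfold R
  rw [U_eq (L := L) ((1 + I) * a), U_eq (L := L) ((1 + I) * b)]
  ring

/-! ### the relations for `g` -/

lemma gid' (H : S_GID) (N : NL L Ω s) : GG L Ω 0 ≠ 0 ∧ ∀ z : ℂ, OT L z →
    gg L Ω z ^ 2 * (℘'[L] (2 * z) - 2 * s * ℘[L] (2 * z)) ^ 2 =
      4 * (℘[L] (2 * z) - 1) * ℘[L] (2 * z) ^ 2 := by
  obtain ⟨h1, h3⟩ := H L Ω s N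
  have hs : s ≠ 0 := by
    rintro rfl
    have := N.ss
    norm_num at this
  have h0 : GG L Ω 0 ≠ 0 := by
    intro h0
    rw [h0] at h1
    have : (16 : ℂ) * s = 0 := by rw [← h1]; ring
    rcases mul_eq_zero.1 this with h4 | h4
    · norm_num at h4
    · exact hs h4
  refine ⟨h0, fun z hz => ?_⟩
  have h4 := h3 z hz
  unfold gg
  rw [div_pow, div_mul_eq_mul_div, div_eq_iff (pow_ne_zero 2 h0)]
  linear_combination h4

/-- the relations between `g(z)` and `g(-z)` -/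
lemma g_rel (H : S_GID) (N : NL L Ω s) {z : ℂ} (hz : OT L z) :
    (2 * R L (2 * z) * (gg L Ω z * gg L Ω (-z))) ^ 2 = (℘[L] (2 * z) - 1) ^ 2 ∧
    R L (2 * z) ^ 2 * (gg L Ω z ^ 2 + gg L Ω (-z) ^ 2) = (℘[L] (2 * z) - 1) * (R L (2 * z) + 2) := by
  obtain ⟨-, h1⟩ := gid' H N
  have ha := h1 z hz
  have hb := h1 (-z) (OT.neg' hz)
  have e1 : 2 * -z = -(2 * z) := by ring
  rw [e1, L.weierstrassP_neg, L.derivWeierstrassP_neg] at hb
  have ht := OT.dbl N.gl hz
  have hy := N.gl.eqn ht.nm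
  have hm := mp N ht
  have hx0 : ℘[L] (2 * z) ≠ 0 := (N.gl.mul_pi (ht.two N.gl)).2
  have hss := N.ss
  unfold R
  set x := ℘[L] (2 * z) with hx
  set y := ℘'[L] (2 * z) with hy'
  set x1 := ℘[L] ((1 + I) * (2 * z)) with hx1
  set g := gg L Ω z with hg
  set g' := gg L Ω (-z) with hg'
  have hP : (y - 2 * s * x) * (-y - 2 * s * x) = -(8 * x ^ 2 * (I * x1 - 1)) := by
    have : y ^ 2 - 4 * s ^ 2 * x ^ 2 = 8 * x ^ 2 * (I * x1 - 1) := by
      rw [hss]
      linear_combination hy + 4 * x * hm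
    linear_combination -this
  constructor
  · have h5 : 64 * x ^ 4 * (I * x1 - 1) ^ 2 * (g * g') ^ 2 = 16 * (x - 1) ^ 2 * x ^ 4 := by
      have h6 : g ^ 2 * (y - 2 * s * x) ^ 2 * (g' ^ 2 * (-y - 2 * s * x) ^ 2) =
          4 * (x - 1) * x ^ 2 * (4 * (x - 1) * x ^ 2) := by rw [ha, hb]
      have h7 : g ^ 2 * (y - 2 * s * x) ^ 2 * (g' ^ 2 * (-y - 2 * s * x) ^ 2) =
          (g * g') ^ 2 * ((y - 2 * s * x) * (-y - 2 * s * x)) ^ 2 := by ring
      rw [h7, hP] at h6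
      linear_combination h6
    have h8 : 16 * x ^ 4 * ((2 * (I * x1 - 1) * (g * g')) ^ 2 - (x - 1) ^ 2) = 0 := by
      linear_combination h5
    have h9 := (mul_eq_zero.1 h8).resolve_left (mul_ne_zero (by norm_num) (pow_ne_zero 4 hx0))
    linear_combination h9
  · have h5 : (-(8 * x ^ 2 * (I * x1 - 1))) ^ 2 * (g ^ 2 + g' ^ 2) =
        4 * (x - 1) * x ^ 2 * ((y - 2 * s * x) ^ 2 + (-y - 2 * s * x) ^ 2) := by
      rw [← hP]
      linear_combination (-y - 2 * s * x) ^ 2 * ha + (y - 2 * s * x) ^ 2 * hb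
    have h6 : (y - 2 * s * x) ^ 2 + (-y - 2 * s * x) ^ 2 = 16 * x ^ 2 * (I * x1 + 1) := by
      have : (y - 2 * s * x) ^ 2 + (-y - 2 * s * x) ^ 2 = 2 * y ^ 2 + 8 * s ^ 2 * x ^ 2 := by ring
      rw [this, hss]
      linear_combination 2 * hy + 8 * x * hm
    rw [h6] at h5
    have h8 : 64 * x ^ 4 * ((I * x1 - 1) ^ 2 * (g ^ 2 + g' ^ 2) - (x - 1) * (I * x1 - 1 + 2)) = 0 := by
      linear_combination h5
    have h9 := (mul_eq_zero.1 h8).resolve_left (mul_ne_zero (by norm_num) (pow_ne_zero 4 hx0))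
    linear_combination h9

/-! ### first part -/

include h2 N in
lemma v_R_sq {t : ℂ} (ht : OT L t) : v (R L t) ^ 2 = v (1 + I) ^ 3 := by
  obtain ⟨ρ, h1, -, h3⟩ := R_sq h2 N ht
  rw [← map_pow, h1, map_mul, map_mul, h3, mul_one, ← v_pi_sq]
  exact (pow_succ _ 2).symm

include h2 N in
lemma v_R_lt {t : ℂ} (ht : OT L t) : v (R L t) < 1 := by
  apply sq_lt
  rw [map_pow, v_R_sq h2 N ht]
  exact pow_lt_one₀ zero_le (v_pi_lt h2) (by norm_num)

/-- the sign -/
lemma g_sign (H : S_GID) (N : NL L Ω s) {z : ℂ} (hz : OT L z) :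
    2 * R L (2 * z) * (gg L Ω z * gg L Ω (-z)) = ℘[L] (2 * z) - 1 ∨
    2 * R L (2 * z) * (gg L Ω z * gg L Ω (-z)) = -(℘[L] (2 * z) - 1) :=
  sq_eq_sq_iff_eq_or_eq_neg.1 (g_rel H N hz).1

include h2 in
theorem part_one (H : S_GID) (N : NL L Ω s) {z : ℂ} (hz : OT L z) :
    Cg v (gg L Ω z - gg L Ω (-z)) 1 := by
  have ht := OT.dbl N.gl hz
  obtain ⟨ρ, h1, h3, h4⟩ := R_sq h2 N ht
  have h5 := (g_rel H N hz).2
  have hU := U_eq (L := L) (2 * z)
  have hcU := cg_U h2 N ht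
  have hr := v_R_lt h2 N ht
  set r := R L (2 * z) with hr'
  set g := gg L Ω z with hg
  set g' := gg L Ω (-z) with hg'
  set u := U L (2 * z) with hu
  have key : ∃ c : ℂ, v c ≤ 1 ∧ ρ * (g - g') ^ 2 = u * (1 + c * r) := by
    have hne : (2 * (1 + I) : ℂ) ≠ 0 := mul_ne_zero two_ne_zero pi_ne
    rcases g_sign H N hz with h6 | h6
    · refine ⟨0, by rw [map_zero]; exact zero_le_one, ?_⟩
      apply mul_left_cancel₀ hne
      have e : r ^ 2 * (g - g') ^ 2 = 2 * ((1 + I) * u) := by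
        have e1 : ℘[L] (2 * z) - 1 = (1 + I) * u := by rw [hU]; ring
        rw [← e1]
        linear_combination h5 - r * h6
      linear_combination e - (g - g') ^ 2 * h1
    · refine ⟨1, by rw [map_one], ?_⟩
      apply mul_left_cancel₀ hne
      have e : r ^ 2 * (g - g') ^ 2 = 2 * ((1 + I) * u) * (1 + r) := by
        have e1 : ℘[L] (2 * z) - 1 = (1 + I) * u := by rw [hU]; ring
        rw [← e1]
        linear_combination h5 - r * h6
      linear_combination e - (g - g') ^ 2 * h1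
  obtain ⟨c, hc, hk⟩ := key
  refine cg_sq h2 (map_one v).le ?_
  have h6 : Cg v (u * (1 + c * r)) 1 := by
    have h7 : Cg v (c * r) 0 := by
      refine ⟨?_, by rw [map_zero]; exact zero_le_one, ?_⟩
      · rw [map_mul]; exact mul_le_one' hc hr.le
      · rw [sub_zero, map_mul]; exact lt_of_le_of_lt (mul_le_of_le_one_left' hc) hr
    have h8 := hcU.mul ((Cg.refl (v := v) (x := 1) (map_one v).le).add h7)
    have e : (1 : ℂ) * (1 + 0) = 1 := by ring
    rwa [e] at h8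
  have h7 : v (ρ * ((g - g') ^ 2 - 1 ^ 2)) < 1 := by
    have e : ρ * ((g - g') ^ 2 - 1 ^ 2) = u * (1 + c * r) - ρ := by rw [← hk]; ring
    rw [e]
    exact (h6.trans h3.symm).s
  rw [map_mul, h4, one_mul] at h7
  exact h7

/-- the scale: `τ² = v(1 + i)` and `v(r) = τ³` -/
lemma exists_tau (h2 : v 2 < 1) (N : NL L Ω s) {t₀ : ℂ} (h₀ : OT L t₀) : ∃ τ : Γ, τ ≠ 0 ∧ τ < 1 ∧
    v (1 + I) = τ ^ 2 ∧ ∀ t, OT L t → v (R L t) = τ ^ 3 := by
  have hl := v_pi_ne (v := v)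
  have h1 := v_R_sq h2 N h₀
  have hR : v (R L t₀) ≠ 0 := by
    intro h0
    rw [h0, zero_pow two_ne_zero] at h1
    exact pow_ne_zero 3 hl h1.symm
  have h3 : (v (R L t₀) / v (1 + I)) ^ 2 = v (1 + I) := by
    rw [div_pow, h1, pow_succ, mul_div_assoc, mul_comm, div_mul_cancel₀ _ (pow_ne_zero 2 hl)]
  refine ⟨v (R L t₀) / v (1 + I), div_ne_zero hR hl, ?_, h3.symm, fun t ht => ?_⟩
  · by_contra hc
    rw [not_lt] at hc
    have h4 := one_le_pow₀ hc (n := 2)
    rw [h3] at h4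
    exact absurd (v_pi_lt h2) (not_lt.2 h4)
  · apply v_inj (n := 2) two_ne_zero
    rw [v_R_sq h2 N ht]
    rw [← pow_mul, mul_comm 3 2, pow_mul, h3]

/-- the valuation of the value -/
theorem v_g (h2 : v 2 < 1) (H : S_GID) (N : NL L Ω s) {τ : Γ} (h0 : τ ≠ 0) (h1 : τ < 1)
    (hl : v (1 + I) = τ ^ 2) (hR : ∀ t, OT L t → v (R L t) = τ ^ 3) {z : ℂ} (hz : OT L z) :
    v (gg L Ω z) ^ 2 * τ ^ 5 = 1 := by
  have ht := OT.dbl N.gl hz
  have hd := part_one h2 H N hz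
  have hx := (wp_sub h2 N.gl ht).1
  have h3 : v (gg L Ω z) * v (gg L Ω (-z)) * τ ^ 5 = 1 := by
    have h4 : v (2 * R L (2 * z) * (gg L Ω z * gg L Ω (-z))) = τ ^ 2 := by
      rcases g_sign H N hz with h6 | h6
      · rw [h6, hx, hl]
      · rw [h6, Valuation.map_neg, hx, hl]
    rw [map_mul, map_mul, map_mul, hR _ ht, ← v_pi_sq, hl] at h4
    have h5 : τ ^ 2 * (v (gg L Ω z) * v (gg L Ω (-z)) * τ ^ 5) = τ ^ 2 * 1 := by
      rw [mul_one, mul_comm (v (gg L Ω z) * v (gg L Ω (-z))), ← mul_assoc, ← pow_add]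
      rw [← pow_mul, ← pow_add] at h4
      exact h4
    exact mul_left_cancel₀ (pow_ne_zero 2 h0) h5
  have hvd : v (gg L Ω z - gg L Ω (-z)) ≤ 1 := hd.l
  have h5 : τ ^ 5 < 1 := pow_lt_one₀ zero_le h1 (by norm_num)
  have heq : v (gg L Ω z) = v (gg L Ω (-z)) := by
    rcases lt_trichotomy (v (gg L Ω z)) (v (gg L Ω (-z))) with h | h | h
    · exfalso
      have h6 := Valuation.map_sub_eq_of_lt_right v h
      rw [h6] at hvd
      have h7 : v (gg L Ω z) * v (gg L Ω (-z)) * τ ^ 5 < 1 :=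
        lt_of_le_of_lt (mul_le_of_le_one_left' (mul_le_one' (h.le.trans hvd) hvd)) h5
      rw [h3] at h7
      exact lt_irrefl _ h7
    · exact h
    · exfalso
      have h6 := Valuation.map_sub_eq_of_lt_left v h
      rw [h6] at hvd
      have h7 : v (gg L Ω z) * v (gg L Ω (-z)) * τ ^ 5 < 1 :=
        lt_of_le_of_lt (mul_le_of_le_one_left' (mul_le_one' hvd (h.le.trans hvd))) h5
      rw [h3] at h7
      exact lt_irrefl _ h7
  rw [← heq, ← sq] at h3
  exact h3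

/-! ### second part -/

/-- the main part of `(1 + i)² g²` -/
noncomputable def Pm (L : PeriodPair) (t : ℂ) : ℂ := (1 + I) ^ 3 * U L t / (2 * R L t)

lemma R_ne (N : NL L Ω s) (h2 : v 2 < 1) {t : ℂ} (ht : OT L t) : R L t ≠ 0 := by
  intro h0
  have h1 := v_R_sq h2 N ht
  rw [h0, map_zero, zero_pow two_ne_zero] at h1
  exact pow_ne_zero 3 v_pi_ne h1.symm

theorem part_g (h2 : v 2 < 1) (H : S_GID) (N : NL L Ω s) {τ : Γ} (h0 : τ ≠ 0) (h1 : τ < 1)
    (hl : v (1 + I) = τ ^ 2) (hR : ∀ t, OT L t → v (R L t) = τ ^ 3) {z : ℂ} (hz : OT L z) :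
    v ((1 + I) ^ 2 * gg L Ω z) < 1 ∧ v (2 * Pm L (2 * z)) < 1 ∧
      v ((1 + I) ^ 2 * gg L Ω z ^ 2 - Pm L (2 * z)) < 1 := by
  have ht := OT.dbl N.gl hz
  have h3 : v ((1 + I) ^ 2 * gg L Ω z) < 1 := by
    apply sq_lt
    rw [mul_pow, map_mul, map_pow, map_pow, map_pow, hl]
    have e : ((τ ^ 2) ^ 2) ^ 2 * v (gg L Ω z) ^ 2 = τ ^ 3 * (v (gg L Ω z) ^ 2 * τ ^ 5) := by
      rw [mul_comm (v (gg L Ω z) ^ 2), ← mul_assoc, ← pow_add, ← pow_mul, ← pow_mul]
    rw [e, v_g h2 H N h0 h1 hl hR hz, mul_one]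
    exact pow_lt_one₀ zero_le h1 (by norm_num)
  have hr0 := R_ne N h2 ht
  have h4 : v (2 * Pm L (2 * z)) < 1 := by
    have e : 2 * Pm L (2 * z) = (1 + I) ^ 3 * U L (2 * z) / R L (2 * z) := by
      unfold Pm
      field_simp
    rw [e, map_div₀, map_mul, map_pow, v_U h2 N ht, mul_one, hR _ ht, hl, ← pow_mul]
    have e2 : τ ^ (2 * 3) = τ ^ 3 * τ ^ 3 := by rw [← pow_add]
    rw [e2, mul_div_assoc, div_self (pow_ne_zero 3 h0), mul_one]
    exact pow_lt_one₀ zero_le h1 (by norm_num)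
  refine ⟨h3, h4, ?_⟩
  have hd := (part_one h2 H N hz).l
  have h5 : v ((1 + I) ^ 2 * gg L Ω z * (gg L Ω z - gg L Ω (-z))) < 1 := by
    rw [map_mul]
    exact mul_lt_one_of_lt_of_le h3 hd
  have hx : ℘[L] (2 * z) - 1 = (1 + I) * U L (2 * z) := by rw [U_eq (L := L) (2 * z)]; ring
  rcases g_sign H N hz with h6 | h6
  · have e : (1 + I) ^ 2 * gg L Ω z ^ 2 - Pm L (2 * z) =
        (1 + I) ^ 2 * gg L Ω z * (gg L Ω z - gg L Ω (-z)) := by
      have e1 : Pm L (2 * z) = (1 + I) ^ 2 * (gg L Ω z * gg L Ω (-z)) := by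
        unfold Pm
        rw [div_eq_iff (mul_ne_zero two_ne_zero hr0)]
        rw [hx] at h6
        linear_combination -(1 + I) ^ 2 * h6
      rw [e1]
      ring
    rw [e]
    exact h5
  · have e : (1 + I) ^ 2 * gg L Ω z ^ 2 - Pm L (2 * z) =
        (1 + I) ^ 2 * gg L Ω z * (gg L Ω z - gg L Ω (-z)) - 2 * Pm L (2 * z) := by
      have e1 : Pm L (2 * z) = -((1 + I) ^ 2 * (gg L Ω z * gg L Ω (-z))) := by
        unfold Pm
        rw [div_eq_iff (mul_ne_zero two_ne_zero hr0)]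
        rw [hx] at h6
        linear_combination (1 + I) ^ 2 * h6
      rw [e1]
      ring
    rw [e]
    exact v.map_sub_lt h5 h4

lemma half {x : ℂ} (h : v x ≤ v 2) : v (x / 2) ≤ 1 := by
  have h0 : v (2 : ℂ) ≠ 0 := (Valuation.ne_zero_iff _).2 two_ne_zero
  rw [map_div₀]
  exact div_le_one_of_le₀ h zero_le

theorem part_two (h2 : v 2 < 1) (H : S_GID) (N : NL L Ω s) {z w : ℂ} (hz : OT L z) (hw : OT L w) :
    v (Xd L z w) ≤ 1 ∧ Cg v ((1 + I) * (gg L Ω z - gg L Ω w)) (Xd L z w) := by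
  have ha := OT.dbl N.gl hz
  have hb := OT.dbl N.gl hw
  have ha1 := OT.mpi N.gl ha
  have hb1 := OT.mpi N.gl hb
  obtain ⟨τ, t0, t1, hl, hR⟩ := exists_tau h2 N ha
  have hl1 := v_pi_lt h2
  obtain ⟨gz1, gz2, gz3⟩ := part_g h2 H N t0 t1 hl hR hz
  obtain ⟨gw1, gw2, gw3⟩ := part_g h2 H N t0 t1 hl hR hw
  have hra0 := R_ne N h2 ha
  have hrb0 := R_ne N h2 hb
  have he := v_diff h2 N ha hb
  have he' := v_diff h2 N ha1 hb1
  have hrel := E_rel N ha hb
  have hsub := R_sub (L := L) (2 * z) (2 * w)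
  obtain ⟨ρ, r1, r2, r3⟩ := R_sq h2 N hb
  have hra := hR _ ha
  have hrb := hR _ hb
  have hub := v_U h2 N hb
  have cub := cg_U h2 N hb
  have cxb := cg_x h2 N hb
  have hpi2 : v (1 + I) * v (1 + I) = v 2 := by rw [← sq]; exact v_pi_sq
  have hra' : I * ℘[L] ((1 + I) * (2 * z)) - 1 = R L (2 * z) := rfl
  have hX : Xd L z w = (1 + I) * (U L (2 * z) - U L (2 * w)) / 2 := by
    unfold Xd
    rw [U_eq (L := L) (2 * z), U_eq (L := L) (2 * w)]
    ring
  have hPa : Pm L (2 * z) * (2 * R L (2 * z)) = (1 + I) ^ 3 * U L (2 * z) := by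
    unfold Pm
    rw [div_mul_cancel₀ _ (mul_ne_zero two_ne_zero hra0)]
  have hPb : Pm L (2 * w) * (2 * R L (2 * w)) = (1 + I) ^ 3 * U L (2 * w) := by
    unfold Pm
    rw [div_mul_cancel₀ _ (mul_ne_zero two_ne_zero hrb0)]
  set Pa := Pm L (2 * z)
  set Pb := Pm L (2 * w)
  set ga := gg L Ω z
  set gb := gg L Ω w
  set ua := U L (2 * z)
  set ub := U L (2 * w)
  set ra := R L (2 * z)
  set rb := R L (2 * w)
  set x1 := ℘[L] ((1 + I) * (2 * z))
  set xb := ℘[L] (2 * w)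
  set e := ua - ub with hedef
  set e' := U L ((1 + I) * (2 * z)) - U L ((1 + I) * (2 * w))
  set K := (1 + I) * e' / 2 with hKdef
  have hK : v K ≤ 1 := by
    apply half
    rw [map_mul, ← hpi2]
    exact mul_le_mul_right he' _
  have hXd : v (Xd L z w) ≤ 1 := by
    rw [hX]
    apply half
    rw [map_mul, ← hpi2]
    exact mul_le_mul_right he _
  refine ⟨hXd, cg_sq h2 hXd ?_⟩
  -- the square of the difference of the abscissas
  have s6 : v (Xd L z w ^ 2 - K) < 1 := by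
    have hc1 : v (-I * ((1 + I) * ra / 2) - ub) ≤ 1 := by
      refine (v.map_sub _ _).trans (max_le ?_ hub.le)
      rw [map_mul, Valuation.map_neg, v_I, one_mul]
      apply half
      rw [map_mul, ← hpi2]
      refine mul_le_mul_right ?_ _
      rw [hra, hl]
      exact pow_le_pow_right_of_le_one' t1.le (by norm_num)
    have e1 : Xd L z w ^ 2 - K = I * (e * (-I * ((1 + I) * ra / 2) - ub)) + (I * xb - 1 * 1) * K := by
      rw [hX, hKdef]
      have hx1 : x1 = -I * (ra + 1) := by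
        rw [← hra']
        linear_combination x1 * I_sq
      rw [hx1] at hrel
      linear_combination (I / 2) * hrel + (e ^ 2 / 4) * I_sq
    rw [e1]
    refine v.map_add_lt ?_ ?_
    · rw [map_mul, v_I, one_mul, map_mul]
      exact mul_lt_one_of_lt_of_le (lt_of_le_of_lt he hl1) hc1
    · rw [map_mul]
      exact mul_lt_one_of_lt_of_le ((cg_I h2).mul cxb).s hK
  -- the difference of the main parts
  have s5 : v ((Pa - Pb) - K) < 1 := by
    set σ := ρ + I * (e' * rb / 2) with hσ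
    have hera : v (e' * rb / 2) < 1 := by
      rw [map_div₀, map_mul, ← hpi2, hrb]
      have h0 : v (1 + I) ≠ 0 := v_pi_ne
      rw [div_lt_one₀ (by rw [← sq]; exact pow_pos (zero_lt_iff.2 h0) 2)]
      refine lt_of_le_of_lt (mul_le_mul_left he' _) ?_
      refine mul_lt_mul_of_pos_left ?_ (zero_lt_iff.2 h0)
      rw [hl]
      exact pow_lt_pow_right_of_lt_one₀ (zero_lt_iff.2 t0) t1 (by norm_num)
    have cσ : Cg v σ 1 := by
      have h7 : Cg v (I * (e' * rb / 2)) 0 := by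
        apply Cg.zero
        rw [map_mul, v_I, one_mul]
        exact hera
      have h8 := r2.add h7
      rwa [add_zero] at h8
    have hσ1 : v σ = 1 := by
      apply le_antisymm cσ.l
      by_contra hc
      rw [not_le] at hc
      have h8 : v (1 : ℂ) < 1 := by
        have e3 : (1 : ℂ) = σ - (σ - 1) := by ring
        rw [e3]
        exact v.map_sub_lt hc cσ.s
      rw [map_one] at h8
      exact lt_irrefl _ h8
    have hrr : ra * rb = 2 * (1 + I) * σ := by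
      rw [hσ]
      linear_combination rb * hsub + r1
    have key : σ * (Pa - Pb) = I * (e * rb / 2) + K * ub := by
      have hne : (4 * (1 + I) : ℂ) ≠ 0 := mul_ne_zero (by norm_num) pi_ne
      apply mul_left_cancel₀ hne
      rw [hKdef, hedef]
      linear_combination (-2) * (Pa - Pb) * hrr + rb * hPa - ra * hPb - (1 + I) ^ 3 * ub * hsub +
        ((1 + I) * (ua - ub) * rb - (1 + I) ^ 2 * I * e' * ub - 2 * (1 + I) ^ 2 * e' * ub) * I_sq
    have herb : v (e * rb / 2) < 1 := by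
      rw [map_div₀, map_mul, ← hpi2, hrb]
      have h0 : v (1 + I) ≠ 0 := v_pi_ne
      rw [div_lt_one₀ (by rw [← sq]; exact pow_pos (zero_lt_iff.2 h0) 2)]
      refine lt_of_le_of_lt (mul_le_mul_left he _) ?_
      refine mul_lt_mul_of_pos_left ?_ (zero_lt_iff.2 h0)
      rw [hl]
      exact pow_lt_pow_right_of_lt_one₀ (zero_lt_iff.2 t0) t1 (by norm_num)
    have h9 : v (σ * ((Pa - Pb) - K)) < 1 := by
      have e4 : σ * ((Pa - Pb) - K) = I * (e * rb / 2) + K * (ub - σ) := by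
        rw [mul_sub, key]; ring
      rw [e4]
      refine v.map_add_lt ?_ ?_
      · rw [map_mul, v_I, one_mul]
        exact herb
      · rw [map_mul, mul_comm]
        exact mul_lt_one_of_lt_of_le (cub.trans cσ.symm).s hK
    rw [map_mul, hσ1, one_mul] at h9
    exact h9
  -- the conclusion
  have e5 : ((1 + I) * (ga - gb)) ^ 2 - Xd L z w ^ 2 =
      ((1 + I) ^ 2 * ga ^ 2 - Pa) + (((1 + I) ^ 2 * gb ^ 2 - Pb) + 2 * Pb) +
      I * (((1 + I) ^ 2 * ga) * ((1 + I) ^ 2 * gb)) + ((Pa - Pb) - K) - (Xd L z w ^ 2 - K) := by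
    linear_combination (-(1 + I) ^ 2 * ga * gb * (2 + I)) * I_sq
  rw [e5]
  refine v.map_sub_lt (v.map_add_lt (v.map_add_lt (v.map_add_lt gz3 (v.map_add_lt gw3 gw2)) ?_) s5) s6
  rw [map_mul, v_I, one_mul, map_mul]
  exact mul_lt_one_of_lt_of_le gz1 gw1.le

end val

/-- **valuations of the values at points of odd order** -/
theorem val (H : S_GID) : S_VAL := by
  intro L Ω s N Γ _ v h2
  refine ⟨1, map_one v, fun z hz => ⟨part_one h2 H N hz, ?_⟩, fun z w hz hw => ?_⟩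
  · obtain ⟨τ, t0, t1, hl, hR⟩ := exists_tau h2 N (OT.dbl N.gl hz)
    have h3 := v_g h2 H N t0 t1 hl hR hz
    have h4 : v (gg L Ω z) ^ 4 * v (1 + I) ^ 5 = (v (gg L Ω z) ^ 2 * τ ^ 5) ^ 2 := by
      rw [hl, mul_pow, ← pow_mul, ← pow_mul, ← pow_mul]
    rw [h4, h3, one_pow]
  · rw [one_mul]
    exact part_two h2 H N hz hw

end Pool.Agent.D0H42.Q4
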