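import Pool.Agent.D0H10.Q4.StmC
import Pool.Agent.Y891.CTK.Sub

/-!
# `y² = x³ + 2 m x` over `ℚ`: minimality and Tamagawa numbers at the finite places
-/

set_option autoImplicit false

open NumberField IsDedekindDomain WeierstrassCurve WithZero

namespace Pool.Agent.D0H42.Q4

open Pool.Agent.D0H10.Q4 (Adm cZ cQ MinimalAt nonsing S_QTAM)
open Pool.Agent.Y696 (NonsingRed)
open Pool.Agent.Y715.Z (q4 q4_eqn ns_some v_three_le)
open Pool.Agent.TH841.SH.D (Pt)

/-- the prime number under the place `v` -/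
noncomputable def pv (v : HeightOneSpectrum (𝓞 ℚ)) : Nat.Primes := Rat.HeightOneSpectrum.primesEquiv v

lemma mem_asIdeal (v : HeightOneSpectrum (𝓞 ℚ)) (n k : ℕ) :
    (n : 𝓞 ℚ) ∈ v.asIdeal ^ k ↔ (pv v : ℕ) ^ k ∣ n := by
  have h1 := Rat.HeightOneSpectrum.span_natGenerator v
  set f := Rat.IsIntegralClosure.intEquiv (𝓞 ℚ) with hf
  have h2 : (n : 𝓞 ℚ) ∈ v.asIdeal ^ k ↔ f n ∈ (v.asIdeal ^ k).map f :=
    (Ideal.apply_mem_of_equiv_iff).symm
  rw [h2, Ideal.map_pow, ← h1, Ideal.span_singleton_pow, Ideal.mem_span_singleton, map_natCast]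
  exact_mod_cast Iff.rfl

lemma val_le_iff (v : HeightOneSpectrum (𝓞 ℚ)) (n k : ℕ) :
    v.valuation ℚ (n : ℚ) ≤ exp (-(k : ℤ)) ↔ (pv v : ℕ) ^ k ∣ n := by
  have h1 : (n : ℚ) = algebraMap (𝓞 ℚ) ℚ (n : 𝓞 ℚ) := (map_natCast _ n).symm
  rw [h1, HeightOneSpectrum.valuation_of_algebraMap, HeightOneSpectrum.intValuation_le_pow_iff_mem,
    mem_asIdeal]

lemma val_le_one (v : HeightOneSpectrum (𝓞 ℚ)) (n : ℕ) : v.valuation ℚ (n : ℚ) ≤ 1 := by
  have h := (val_le_iff v n 0).2 (by simp)
  simpa using h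

/-- the exact value -/
lemma val_eq (v : HeightOneSpectrum (𝓞 ℚ)) {n k : ℕ} (h1 : (pv v : ℕ) ^ k ∣ n)
    (h2 : ¬ (pv v : ℕ) ^ (k + 1) ∣ n) : v.valuation ℚ (n : ℚ) = exp (-(k : ℤ)) := by
  have h3 := (val_le_iff v n k).2 h1
  have h4 := mt (val_le_iff v n (k + 1)).1 h2
  have hne : v.valuation ℚ (n : ℚ) ≠ 0 := by
    intro h0
    rw [h0] at h4
    exact h4 zero_le
  rw [← exp_log hne] at h3 h4 ⊢
  rw [exp_le_exp] at h3 h4
  congr 1
  push_cast at h4
  omega

lemma val_unit (v : HeightOneSpectrum (𝓞 ℚ)) {n : ℕ} (h : ¬ (pv v : ℕ) ∣ n) :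
    v.valuation ℚ (n : ℚ) = 1 := by
  have := val_eq v (n := n) (k := 0) (by simp) (by simpa using h)
  simpa using this

/-! ### minimality -/

lemma int_Δ (v : HeightOneSpectrum (𝓞 ℚ)) (W : WeierstrassCurve ℚ) (h1 : v.valuation ℚ W.a₁ ≤ 1)
    (h2 : v.valuation ℚ W.a₂ ≤ 1) (h3 : v.valuation ℚ W.a₃ ≤ 1) (h4 : v.valuation ℚ W.a₄ ≤ 1)
    (h6 : v.valuation ℚ W.a₆ ≤ 1) : v.valuation ℚ W.Δ ≤ 1 := by
  set R := (v.valuation ℚ).integer with hR
  have m1 : W.a₁ ∈ R := h1
  have m2 : W.a₂ ∈ R := h2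
  have m3 : W.a₃ ∈ R := h3
  have m4 : W.a₄ ∈ R := h4
  have m6 : W.a₆ ∈ R := h6
  have n2 : (2 : ℚ) ∈ R := by exact_mod_cast natCast_mem R 2
  have n4 : (4 : ℚ) ∈ R := by exact_mod_cast natCast_mem R 4
  have n8 : (8 : ℚ) ∈ R := by exact_mod_cast natCast_mem R 8
  have n27 : (27 : ℚ) ∈ R := by exact_mod_cast natCast_mem R 27
  have n9 : (9 : ℚ) ∈ R := by exact_mod_cast natCast_mem R 9
  have b2 : W.b₂ ∈ R := by
    unfold WeierstrassCurve.b₂
    exact R.add_mem (R.pow_mem m1 2) (R.mul_mem n4 m2)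
  have b4 : W.b₄ ∈ R := by
    unfold WeierstrassCurve.b₄
    exact R.add_mem (R.mul_mem n2 m4) (R.mul_mem m1 m3)
  have b6 : W.b₆ ∈ R := by
    unfold WeierstrassCurve.b₆
    exact R.add_mem (R.pow_mem m3 2) (R.mul_mem n4 m6)
  have b8 : W.b₈ ∈ R := by
    unfold WeierstrassCurve.b₈
    exact R.sub_mem (R.add_mem (R.sub_mem (R.add_mem (R.mul_mem (R.pow_mem m1 2) m6)
      (R.mul_mem (R.mul_mem n4 m2) m6)) (R.mul_mem (R.mul_mem m1 m3) m4))
      (R.mul_mem m2 (R.pow_mem m3 2))) (R.pow_mem m4 2)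
  have hΔ : W.Δ ∈ R := by
    unfold WeierstrassCurve.Δ
    exact R.add_mem (R.sub_mem (R.sub_mem (R.mul_mem (R.neg_mem (R.pow_mem b2 2)) b8)
      (R.mul_mem n8 (R.pow_mem b4 3))) (R.mul_mem n27 (R.pow_mem b6 2)))
      (R.mul_mem (R.mul_mem (R.mul_mem n9 b2) b4) b6)
  exact hΔ

lemma cQ_Δ (m : ℕ) : (cQ m).Δ = -((512 * m ^ 3 : ℕ) : ℚ) := by
  unfold cQ cZ WeierstrassCurve.map
  simp only [WeierstrassCurve.Δ, WeierstrassCurve.b₂, WeierstrassCurve.b₄, WeierstrassCurve.b₆,
    WeierstrassCurve.b₈]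
  push_cast
  simp
  ring

/-- no twelfth power divides the discriminant -/
lemma no_twelve {m p : ℕ} (hm : Adm m) (hp : p.Prime) : ¬ p ^ 12 ∣ 512 * m ^ 3 := by
  intro h
  have h0 : m ≠ 0 := hm.1.ne_zero
  have hne : 512 * m ^ 3 ≠ 0 := mul_ne_zero (by norm_num) (pow_ne_zero _ h0)
  rw [hp.pow_dvd_iff_le_factorization hne, Nat.factorization_mul (by norm_num)
    (pow_ne_zero _ h0), Nat.factorization_pow] at h
  simp only [Finsupp.coe_add, Pi.add_apply, Finsupp.coe_smul, Pi.smul_apply, smul_eq_mul] at h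
  have h512 : (512 : ℕ).factorization p ≤ 9 ∧ (p ≠ 2 → (512 : ℕ).factorization p = 0) := by
    rw [show (512 : ℕ) = 2 ^ 9 by norm_num, Nat.factorization_pow,
      Nat.Prime.factorization Nat.prime_two]
    simp only [Finsupp.coe_smul, Pi.smul_apply, smul_eq_mul, Finsupp.single_apply]
    constructor
    · split_ifs <;> norm_num
    · intro hp2
      rw [if_neg (Ne.symm hp2), mul_zero]
  have hm1 : m.factorization p ≤ 1 := (Nat.squarefree_iff_factorization_le_one h0).1 hm.1 p
  by_cases hp2 : p = 2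
  · have : m.factorization p = 0 := by
      rw [Nat.factorization_eq_zero_iff]
      right; left
      intro hd
      have := hm.2 p (Nat.mem_primeFactors.2 ⟨hp, hd, h0⟩)
      omega
    omega
  · have := h512.2 hp2
    omega

theorem minimal {m : ℕ} (hm : Adm m) (v : HeightOneSpectrum (𝓞 ℚ)) : MinimalAt (cQ m) v := by
  intro C h1 h2 h3 h4 h6
  have h7 := int_Δ v _ h1 h2 h3 h4 h6
  rw [variableChange_Δ, map_mul, map_pow] at h7 ⊢
  set u := ((C.u⁻¹ : ℚˣ) : ℚ) with hu
  have hu0 : v.valuation ℚ u ≠ 0 := (Valuation.ne_zero_iff _).2 (Units.ne_zero _)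
  have hu1 : v.valuation ℚ u ≤ 1 := by
    by_contra hlt
    rw [not_le, ← exp_log hu0, ← exp_zero, exp_lt_exp] at hlt
    have h12 : v.valuation ℚ (cQ m).Δ ≤ exp (-(12 : ℕ) : ℤ) := by
      have h8 : v.valuation ℚ (cQ m).Δ = (v.valuation ℚ u ^ 12)⁻¹ *
          (v.valuation ℚ u ^ 12 * v.valuation ℚ (cQ m).Δ) := by
        rw [← mul_assoc, inv_mul_cancel₀ (pow_ne_zero _ hu0), one_mul]
      rw [h8]
      refine (mul_le_of_le_one_right' h7).trans ?_
      rw [← exp_log hu0, ← exp_nsmul, ← exp_neg, exp_le_exp]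
      simp only [nsmul_eq_mul]
      push_cast
      linarith
    rw [cQ_Δ, Valuation.map_neg, val_le_iff] at h12
    exact no_twelve hm (pv v).2 h12
  exact mul_le_of_le_one_left' (pow_le_one₀ zero_le hu1)


/-! ### the local index -/

section loc

variable {L : Type} [Field L] (v : Valuation L ℤᵐ⁰)

/-- the points of nonsingular reduction -/
def NS (W : WeierstrassCurve L) : Set W.toAffine.Point :=
  {P | ∀ x y h, P = Affine.Point.some x y h →
    1 < v x ∨ v (W.a₁ * y - (3 * x ^ 2 + 2 * W.a₂ * x + W.a₄)) = 1 ∨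
    v (2 * y + W.a₁ * x + W.a₃) = 1}

variable {v}

lemma mem_NS {D : L} (hD : v D ≤ 1) (P : (q4 D).toAffine.Point) :
    P ∈ NS v (q4 D) ↔ NonsingRed v (q4 D) P := by
  rcases P with _ | ⟨x, y, h⟩
  · refine iff_of_true ?_ trivial
    intro x y h he
    cases he
  · rw [ns_some]
    have he := q4_eqn.1 h.1
    have h3 : v (3 : L) ≤ 1 := v_three_le v
    have hn : (Affine.Point.some x y h : (q4 D).toAffine.Point) ∈ NS v (q4 D) ↔
        (1 < v x ∨ v (3 * x ^ 2 + D) = 1 ∨ v (2 * y) = 1) := by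
      constructor
      · intro h1
        have h2 := h1 x y h rfl
        simp only [q4, zero_mul, mul_zero, add_zero, zero_sub, Valuation.map_neg] at h2
        exact h2
      · intro h1 x' y' h' e
        injection e with e1 e2
        subst e1 e2
        simp only [q4, zero_mul, mul_zero, add_zero, zero_sub, Valuation.map_neg]
        exact h1
    rw [hn]
    have h2 : v (2 : L) ≤ 1 := Pool.Agent.Y682.w_two_le v
    by_cases hx : v x ≤ 1
    · have hy : v y ≤ 1 := by
        by_contra hy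
        rw [not_le] at hy
        have h5 : v y ^ 2 ≤ 1 := by
          rw [← map_pow, he]
          refine (Valuation.map_add _ _ _).trans (max_le ?_ ?_)
          · rw [map_pow]; exact pow_le_one₀ zero_le hx
          · rw [map_mul]; exact mul_le_one' hD hx
        exact absurd (one_lt_pow₀ hy two_ne_zero) (not_lt.2 h5)
      have e1 : v (3 * x ^ 2 + D) ≤ 1 := by
        refine (Valuation.map_add _ _ _).trans (max_le ?_ hD)
        rw [map_mul, map_pow]
        exact mul_le_one' h3 (pow_le_one₀ zero_le hx)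
      have e2 : v (2 * y) ≤ 1 := by
        rw [map_mul]; exact mul_le_one' h2 hy
      constructor
      · rintro (h6 | h6 | h6)
        · exact absurd hx (not_le.2 h6)
        · exact Or.inr h6.ge
        · exact Or.inl h6.ge
      · rintro (h6 | h6)
        · exact Or.inr (Or.inr (le_antisymm e2 h6))
        · exact Or.inr (Or.inl (le_antisymm e1 h6))
    · rw [not_le] at hx
      refine iff_of_true (Or.inl hx) ?_
      by_contra hc
      push Not at hc
      obtain ⟨hy, hx'⟩ := hc
      have hDx : v D < v x ^ 2 := lt_of_le_of_lt hD (one_lt_pow₀ hx two_ne_zero)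
      have h4 : v (x ^ 2 + D) = v x ^ 2 := by
        rw [Valuation.map_add_eq_of_lt_left, map_pow]
        rw [map_pow]; exact hDx
      have h5 : v y ^ 2 = v x ^ 3 := by
        rw [← map_pow, he]
        have : x ^ 3 + D * x = x * (x ^ 2 + D) := by ring
        rw [this, map_mul, h4]
        exact (pow_succ' _ _).symm
      rcases h2.eq_or_lt with h6 | h6
      · rw [map_mul, h6, one_mul] at hy
        have h7 : v y ^ 2 < 1 := pow_lt_one₀ zero_le hy two_ne_zero
        rw [h5] at h7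
        exact absurd (one_lt_pow₀ hx (n := 3) (by norm_num)) (not_lt.2 h7.le)
      · have e3 : v (3 : L) = 1 := by
          have e3 : (3 : L) = 1 + 2 := by norm_num
          rw [e3, Valuation.map_add_eq_of_lt_left, map_one]
          rw [map_one]
          exact h6
        have h7 : v (3 * x ^ 2 + D) = v x ^ 2 := by
          rw [Valuation.map_add_eq_of_lt_left, map_mul, e3, one_mul, map_pow]
          rw [map_mul, e3, one_mul, map_pow]
          exact hDx
        rw [h7] at hx'
        exact absurd (one_lt_pow₀ hx two_ne_zero) (not_lt.2 hx'.le)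

lemma ns_small {D x y : L} (hD : v D < 1) (h : (q4 D).toAffine.Nonsingular x y) :
    NonsingRed v (q4 D) (.some x y h) ↔ 1 ≤ v x := by
  rw [ns_some]
  have he := q4_eqn.1 h.1
  have h3 : v (3 : L) ≤ 1 := v_three_le v
  have h2 : v (2 : L) ≤ 1 := Pool.Agent.Y682.w_two_le v
  constructor
  · intro h1
    by_contra hx
    rw [not_le] at hx
    rcases h1 with h1 | h1
    · have h4 : v y ^ 2 < 1 := by
        rw [← map_pow, he]
        refine lt_of_le_of_lt (Valuation.map_add _ _ _) (max_lt ?_ ?_)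
        · rw [map_pow]; exact pow_lt_one₀ zero_le hx (by norm_num)
        · rw [map_mul]; exact mul_lt_one_of_lt_of_le hD hx.le
      have h5 : v y < 1 := by
        by_contra hy
        rw [not_lt] at hy
        exact absurd h4 (not_lt.2 (one_le_pow₀ hy))
      rw [map_mul] at h1
      exact absurd h1 (not_le.2 (lt_of_le_of_lt (mul_le_of_le_one_left' h2) h5))
    · refine absurd h1 (not_le.2 ?_)
      refine lt_of_le_of_lt (Valuation.map_add _ _ _) (max_lt ?_ hD)
      rw [map_mul, map_pow]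
      exact lt_of_le_of_lt (mul_le_of_le_one_left' h3) (pow_lt_one₀ zero_le hx two_ne_zero)
  · intro hx
    have hDx : v D < v x ^ 2 := lt_of_lt_of_le hD (one_le_pow₀ hx)
    rcases h2.eq_or_lt with h6 | h6
    · left
      rw [map_mul, h6, one_mul]
      have h4 : v (x ^ 2 + D) = v x ^ 2 := by
        rw [Valuation.map_add_eq_of_lt_left, map_pow]
        rw [map_pow]; exact hDx
      have h5 : v y ^ 2 = v x ^ 3 := by
        rw [← map_pow, he]
        have : x ^ 3 + D * x = x * (x ^ 2 + D) := by ring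
        rw [this, map_mul, h4]
        exact (pow_succ' _ _).symm
      by_contra hy
      rw [not_le] at hy
      have h7 : v y ^ 2 < 1 := pow_lt_one₀ zero_le hy two_ne_zero
      rw [h5] at h7
      exact absurd h7 (not_lt.2 (one_le_pow₀ hx))
    · right
      have e3 : v (3 : L) = 1 := by
        have e3 : (3 : L) = 1 + 2 := by norm_num
        rw [e3, Valuation.map_add_eq_of_lt_left, map_one]
        rw [map_one]
        exact h6
      have h7 : v (3 * x ^ 2 + D) = v x ^ 2 := by
        rw [Valuation.map_add_eq_of_lt_left, map_mul, e3, one_mul, map_pow]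
        rw [map_mul, e3, one_mul, map_pow]
        exact hDx
      rw [h7]
      exact one_le_pow₀ hx

/-- the index two -/
lemma idx_two [DecidableEq L] {D : L} (hD : v D = exp (-1 : ℤ))
    (H : AddSubgroup (q4 D).toAffine.Point) (hH : ∀ P, P ∈ H ↔ NonsingRed v (q4 D) P) :
    H.index = 2 := by
  have hlt : v D < 1 := by
    rw [hD, ← exp_zero, exp_lt_exp]; norm_num
  have hD0 : D ≠ 0 := by
    rintro rfl
    rw [map_zero] at hD
    exact (exp_ne_zero (a := (-1 : ℤ))) hD.symm
  have hT : (q4 D).toAffine.Nonsingular 0 0 := by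
    rw [Affine.nonsingular_iff]
    refine ⟨q4_eqn.2 (by ring), Or.inl ?_⟩
    simp [q4]
    exact hD0.symm
  rw [AddSubgroup.index_eq_two_iff]
  refine ⟨.some 0 0 hT, fun P => ?_⟩
  have hTn : (Affine.Point.some 0 0 hT : (q4 D).toAffine.Point) ∉ H := by
    rw [hH, ns_small hlt, map_zero]
    exact not_le.2 zero_lt_one
  rcases P with _ | ⟨x, y, h⟩
  · right
    refine ⟨?_, ?_⟩
    · exact H.zero_mem
    · have e : (Affine.Point.zero : (q4 D).toAffine.Point) + .some 0 0 hT = .some 0 0 hT :=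
        zero_add _
      rw [e]
      exact hTn
  · have he := q4_eqn.1 h.1
    by_cases hx : x = 0
    · subst hx
      have hy : y = 0 := by
        have : y ^ 2 = 0 := by rw [he]; ring
        exact pow_eq_zero_iff two_ne_zero |>.1 this
      subst hy
      left
      refine ⟨?_, hTn⟩
      have e : (Affine.Point.some 0 0 h : (q4 D).toAffine.Point) + .some 0 0 hT = 0 := by
        refine Affine.Point.add_of_Y_eq rfl ?_
        simp [q4, Affine.negY]
      rw [e]
      exact H.zero_mem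
    · have hsl : (q4 D).toAffine.slope x 0 y 0 = y / x := by
        rw [Affine.slope_of_X_ne hx, sub_zero, sub_zero]
      have hadd : ∃ h', (Affine.Point.some x y h : (q4 D).toAffine.Point) + .some 0 0 hT =
          .some (D / x) ((q4 D).toAffine.addY x 0 y ((q4 D).toAffine.slope x 0 y 0)) h' := by
        have e1 := Affine.Point.add_of_X_ne (W := (q4 D).toAffine) (h₁ := h) (h₂ := hT) hx
        have e2 : (q4 D).toAffine.addX x 0 ((q4 D).toAffine.slope x 0 y 0) = D / x := by
          rw [hsl]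
          simp only [Affine.addX, q4]
          field_simp
          linear_combination he
        obtain ⟨h'', e1⟩ : ∃ h'', (Affine.Point.some x y h : (q4 D).toAffine.Point) +
            .some 0 0 hT = .some ((q4 D).toAffine.addX x 0 ((q4 D).toAffine.slope x 0 y 0))
              ((q4 D).toAffine.addY x 0 y ((q4 D).toAffine.slope x 0 y 0)) h'' := ⟨_, e1⟩
        revert h''
        rw [e2]
        exact fun h'' e1 => ⟨h'', e1⟩
      obtain ⟨h', hadd⟩ := hadd
      have hvx : v x ≠ 0 := (Valuation.ne_zero_iff _).2 hx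
      by_cases h1 : 1 ≤ v x
      · right
        refine ⟨?_, ?_⟩
        · rw [hH, ns_small hlt]; exact h1
        · rw [hadd, hH, ns_small hlt, not_le, map_div₀, div_lt_iff₀ (zero_lt_iff.2 hvx), one_mul]
          exact lt_of_lt_of_le hlt h1
      · left
        refine ⟨?_, ?_⟩
        · rw [hadd, hH, ns_small hlt, map_div₀, le_div_iff₀ (zero_lt_iff.2 hvx), one_mul, hD]
          rw [not_le] at h1
          rw [← exp_log hvx] at h1 ⊢
          rw [← exp_zero, exp_lt_exp] at h1
          rw [exp_le_exp]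
          omega
        · rw [hH, ns_small hlt]; exact h1

/-- the index of the closure -/
lemma idx_cl [DecidableEq L] {W : WeierstrassCurve L} {D : L} (hW : W = q4 D) (c : ℕ)
    (hc : (c = 2 ∧ v D = exp (-1 : ℤ)) ∨ (c = 1 ∧ v D = 1 ∧ v 2 = 1)) :
    (AddSubgroup.closure (NS v W)).index = c := by
  subst hW
  have hD1 : v D ≤ 1 := by
    rcases hc with ⟨-, h⟩ | ⟨-, h, -⟩
    · rw [h, ← exp_zero, exp_le_exp]; norm_num
    · exact h.le
  obtain ⟨H, hH⟩ : ∃ H : AddSubgroup (q4 D).toAffine.Point,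
      ∀ P, P ∈ H ↔ NonsingRed v (q4 D) P := by
    have h := Pool.Agent.Y891.CTK.sub_of v (q4 D)
      (by simp [q4]) (by simp [q4]) (by simp [q4]) (by simpa [q4] using hD1) (by simp [q4])
    have e : ‹DecidableEq L› = (fun a b => Classical.propDecidable (a = b)) := Subsingleton.elim _ _
    subst e
    exact h
  have hcl : AddSubgroup.closure (NS v (q4 D)) = H := by
    have h1 : NS v (q4 D) = (H : Set (q4 D).toAffine.Point) := by
      ext P
      rw [mem_NS hD1, SetLike.mem_coe, hH]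
    rw [h1, AddSubgroup.closure_eq]
  rw [hcl]
  rcases hc with ⟨rfl, h⟩ | ⟨rfl, h, h2⟩
  · exact idx_two h H hH
  · rw [AddSubgroup.index_eq_one]
    apply SetLike.ext
    intro P
    rw [hH]
    exact ⟨fun _ => AddSubgroup.mem_top _, fun _ => Pool.Agent.Y715.Z.ns_good h2 h P⟩

end loc

/-! ### the places of `ℚ` -/

lemma vv_coe (v : HeightOneSpectrum (𝓞 ℚ)) (x : ℚ) :
    (Valued.v : Valuation (v.adicCompletion ℚ) ℤᵐ⁰) (algebraMap ℚ (v.adicCompletion ℚ) x) =
      v.valuation ℚ x := Pool.Agent.Y682.vv_coe v x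

theorem local_index {m : ℕ} (hm : Adm m) (v : HeightOneSpectrum (𝓞 ℚ)) :
    (nonsing (cQ m) v).index = if (pv v : ℕ) ∣ 2 * m then 2 else 1 := by
  have hW : (cQ m).baseChange (v.adicCompletion ℚ) =
      q4 (algebraMap ℚ (v.adicCompletion ℚ) ((2 * m : ℕ) : ℚ)) := by
    unfold WeierstrassCurve.baseChange cQ cZ q4 WeierstrassCurve.map
    ext <;> simp
  have h2 : (2 : v.adicCompletion ℚ) = algebraMap ℚ (v.adicCompletion ℚ) ((2 : ℕ) : ℚ) := by
    push_cast
    rw [map_ofNat]
  have hkey := @idx_cl (v.adicCompletion ℚ) _ Valued.v (Classical.decEq _) _ _ hW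
    (if (pv v : ℕ) ∣ 2 * m then 2 else 1) (by
      by_cases hd : (pv v : ℕ) ∣ 2 * m
      · left
        rw [if_pos hd, vv_coe]
        refine ⟨rfl, ?_⟩
        have hsq : Squarefree (2 * m) := by
          rw [Nat.squarefree_mul_iff]
          refine ⟨?_, Nat.squarefree_two, hm.1⟩
          rw [Nat.coprime_two_left, Nat.odd_iff]
          by_contra h
          have h2m : 2 ∣ m := by omega
          have := hm.2 2 (Nat.mem_primeFactors.2 ⟨Nat.prime_two, h2m, hm.1.ne_zero⟩)
          omega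
        have h3 := val_eq v (n := 2 * m) (k := 1) (by simpa using hd) (by
          intro h
          norm_num at h
          rw [pow_two] at h
          exact (pv v).2.one_lt.ne' (Nat.isUnit_iff.1 (hsq _ h)))
        simpa using h3
      · right
        rw [if_neg hd, vv_coe, h2, vv_coe]
        exact ⟨rfl, val_unit v hd, val_unit v fun h => hd (Dvd.dvd.mul_right h _)⟩)
  exact hkey

theorem qtam : S_QTAM := by
  intro m hm
  refine ⟨fun v => minimal hm v, ?_⟩
  simp only [local_index hm]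
  have h1 : ∏ᶠ v : HeightOneSpectrum (𝓞 ℚ), (if (pv v : ℕ) ∣ 2 * m then 2 else 1) =
      ∏ᶠ p : Nat.Primes, (if (p : ℕ) ∣ 2 * m then 2 else 1) :=
    finprod_comp_equiv (Rat.HeightOneSpectrum.primesEquiv (R := 𝓞 ℚ))
      (f := fun p : Nat.Primes => if (p : ℕ) ∣ 2 * m then 2 else 1)
  rw [h1]
  have h0 : 2 * m ≠ 0 := mul_ne_zero two_ne_zero hm.1.ne_zero
  set S : Finset Nat.Primes := (2 * m).primeFactors.attach.map
    ⟨fun p => ⟨p.1, Nat.prime_of_mem_primeFactors p.2⟩, fun p q h => by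
      have := congrArg Subtype.val h
      exact Subtype.ext this⟩ with hS
  have hmem : ∀ p : Nat.Primes, p ∈ S ↔ (p : ℕ) ∣ 2 * m := by
    intro p
    rw [hS, Finset.mem_map]
    constructor
    · rintro ⟨q, -, rfl⟩
      exact Nat.dvd_of_mem_primeFactors q.2
    · intro h
      exact ⟨⟨p.1, Nat.mem_primeFactors.2 ⟨p.2, h, h0⟩⟩, Finset.mem_attach _ _, rfl⟩
  rw [finprod_eq_prod_of_mulSupport_subset (s := S)]
  · have h2 : ∀ p ∈ S, (if (p : ℕ) ∣ 2 * m then 2 else 1) = 2 := fun p hp => if_pos ((hmem p).1 hp)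
    rw [Finset.prod_congr rfl h2, Finset.prod_const, hS, Finset.card_map, Finset.card_attach]
    have h3 : (2 * m).primeFactors = insert 2 m.primeFactors := by
      rw [Nat.primeFactors_mul two_ne_zero hm.1.ne_zero, Nat.Prime.primeFactors Nat.prime_two]
      rfl
    have h4 : 2 ∉ m.primeFactors := by
      intro h
      have := hm.2 2 h
      omega
    rw [h3, Finset.card_insert_of_notMem h4]
  · intro p hp
    rw [Function.mem_mulSupport] at hp
    rw [Finset.mem_coe, hmem]
    by_contra h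
    exact hp (if_neg h)

end Pool.Agent.D0H42.Q4
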